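import Pool.Agent.H501.G.R_pool_sql_team_seeded_3997aac3.Q279.SC.Stm

/-!
# Project SC, job FR: the substitution `q ↦ q^p`
-/

set_option autoImplicit false

namespace Pool.Agent.Q279.SC.JFR

open PowerSeries Pool.Agent.Q279.SC

/-- `fr p` is `PowerSeries.expand p` -/
theorem fr_eq {p : ℕ} (hp : p ≠ 0) {R : Type} [CommRing R] (f : R⟦X⟧) :
    fr p f = expand p hp f := by
  ext n
  rw [fr, coeff_mk]
  split_ifs with h
  · obtain ⟨k, rfl⟩ := h
    rw [Nat.mul_div_cancel_left k (Nat.pos_of_ne_zero hp), coeff_expand_mul]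
  · rw [coeff_expand_of_not_dvd p hp _ h]

/-- Job FR. -/
theorem main : FrF := by
  intro p hp R _
  have hp0 := hp.ne_zero
  refine ⟨?_, ?_, ?_, ?_, ?_, ?_⟩
  · intro f g
    simp only [fr_eq hp0, map_mul]
  · intro f g
    simp only [fr_eq hp0, map_add]
  · simp only [fr_eq hp0, map_one]
  · rw [fr_eq hp0, expand_X]
  · intro f
    ext n
    have hC : ((p : ℕ) : R⟦X⟧) = C (p : R) := by simp
    rw [hC, coeff_C_mul]
    simp only [th, fr, coeff_mk]
    split_ifs with h
    · obtain ⟨k, rfl⟩ := h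
      rw [Nat.mul_div_cancel_left k hp.pos]
      push_cast
      ring
    · simp
  · intro S _ φ f
    ext n
    simp only [fr, coeff_mk, coeff_map]
    split_ifs with h
    · rfl
    · simp

end Pool.Agent.Q279.SC.JFR
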