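import Pool.Agent.H501.G.R_pool_sql_team_seeded_3997aac3.Q279.SC.J.AODE

/-! Job COREA of project SC (author helper279). -/

set_option autoImplicit false

namespace Pool.Agent.Q279.SC.JCOREA

open PowerSeries Pool.Agent.Q279.SC.B298 Pool.Agent.Q279.SC.JAODE

theorem toZMod_zero_iff (p : ℕ) [Fact p.Prime] (x : ℤ_[p]) :
    PadicInt.toZMod x = 0 ↔ (p : ℤ_[p]) ∣ x := by
  rw [← RingHom.mem_ker, PadicInt.ker_toZMod, PadicInt.maximalIdeal_eq_span_p,
    Ideal.mem_span_singleton]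

theorem map_series (R S : Type) [CommRing R] [CommRing S] (φ : R →+* S) (f : ℤ⟦X⟧) :
    PowerSeries.map φ (PowerSeries.map (Int.castRingHom R) f) =
      PowerSeries.map (Int.castRingHom S) f := by
  ext n
  rw [coeff_map, coeff_map, coeff_map]
  simp

theorem ev_red (p : ℕ) [Fact p.Prime] (F : P2 ℤ_[p]) :
    ev (ZMod p) (redP p F) = redS p (ev ℤ_[p] F) := by
  induction F using MvPolynomial.induction_on with
  | C a =>
    rw [redP, MvPolynomial.map_C, ev_C, ev_C, redS, PowerSeries.map_C]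
  | add F G hF hG => rw [map_add, map_add, hF, hG, map_add, map_add]
  | mul_X F i hF =>
    rw [map_mul, map_mul, map_mul, map_mul, hF]
    congr 1
    fin_cases i
    · simp only [Fin.zero_eta, Fin.isValue]
      rw [ev_X0, redP, MvPolynomial.map_X, ev_X0, redS, q4, q4, map_series]
    · simp only [Fin.mk_one, Fin.isValue]
      rw [ev_X1, redP, MvPolynomial.map_X, ev_X1, redS, q6, q6, map_series]

theorem iso_red (p : ℕ) [Fact p.Prime] (F : P2 ℤ_[p]) (w : ℕ) (h : Iso F w) :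
    Iso (redP p F) w := by
  intro d hd
  refine h (d := d) ?_
  intro h0
  apply hd
  rw [redP, MvPolynomial.coeff_map, h0, map_zero]

theorem main : JCoreA := by
  intro hFr hFrP hRam hDer hSt p hp hp5 T N ε V hT hevT hε hN hNeq
  obtain ⟨fmul, fadd, fone, -, fth, -⟩ := hFr p hp.out ℤ_[p]
  obtain ⟨gmul, gadd, gone, -, -, -⟩ := hFr p hp.out (ZMod p)
  obtain ⟨-, -, -, -, -, fmap⟩ := hFr p hp.out ℤ_[p]
  have hredfr : ∀ f : ℤ_[p]⟦X⟧, redS p (fr p f) = (redS p f) ^ p := by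
    intro f
    rw [← hFrP, redS, fmap]
  have hr4 : redS p (q4 ℤ_[p]) = q4 (ZMod p) := by rw [redS, q4, q4, map_series]
  have hr6 : redS p (q6 ℤ_[p]) = q6 (ZMod p) := by rw [redS, q6, q6, map_series]
  have hrD : redS p (qD ℤ_[p]) = qD (ZMod p) := by rw [redS, qD, qD, map_series]
  have hrth : ∀ f : ℤ_[p]⟦X⟧, redS p (th f) = th (redS p f) := fun f => by rw [redS, th_map]
  have hP0 : redS p ((p : ℕ) : ℤ_[p]⟦X⟧) = 0 := by rw [map_natCast, cast_p]
  have hqD0 : qD (ZMod p) ≠ 0 := by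
    rw [rd hRam]
    intro h
    rcases mul_eq_zero.1 h with h | h
    · exact X_ne_zero h
    · have := rd0 (R := ZMod p) hRam
      rw [h, map_zero] at this
      exact zero_ne_one this
  have h2 := two_half p hp.out hp5
  -- the reduction of `N`
  have hevN : ev (ZMod p) (redP p N) = (q4 (ZMod p) * q6 (ZMod p)) ^ p := by
    have h := congrArg (redS p) hNeq
    rw [map_mul, map_add, map_mul, map_mul, map_pow, map_pow, hP0, hredfr, hredfr, map_mul, hr4, hr6,
      hrD, ← ev_red] at h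
    have h3 : (qD (ZMod p)) ^ p * ev (ZMod p) (redP p N) =
        (qD (ZMod p)) ^ p * (q4 (ZMod p) * q6 (ZMod p)) ^ p := by
      rw [mul_comm, h]; ring
    exact mul_left_cancel₀ (pow_ne_zero p hqD0) h3
  have hevTb : ev (ZMod p) (redP p T) = 1 := by
    rw [ev_red, hevT, map_add, map_mul, hP0, zero_mul, add_zero, map_one]
  have hXX : ∀ (R : Type) [CommRing R], Iso (MvPolynomial.X 0 * MvPolynomial.X 1 : P2 R) 5 :=
    fun R _ => iso_mul (iso_X0 (R := R)) (iso_X1 (R := R))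
  have hwt : ∀ (R : Type) [CommRing R] (T' : P2 R), Iso T' ((p - 1) / 2) →
      Iso (T' ^ 2 * (MvPolynomial.X 0 * MvPolynomial.X 1) ^ p) (6 * p - 1) := by
    intro R _ T' h
    have := iso_mul (iso_pow h 2) (iso_pow (hXX R) p)
    have e : 2 * ((p - 1) / 2) + p * 5 = 6 * p - 1 := by omega
    rwa [e] at this
  have hNbar : redP p N = (redP p T) ^ 2 * (MvPolynomial.X 0 * MvPolynomial.X 1) ^ p := by
    refine eq_of_ev hSt p hp5 _ _ (6 * p - 1) (iso_red p N _ hN)
      (hwt _ _ (iso_red p T _ hT)) ?_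
    rw [hevN, map_mul, map_pow, map_pow, map_mul, hevTb, ev_X0, ev_X1, one_pow, one_mul]
  -- `G`
  obtain ⟨G, hG⟩ : ∃ G : P2 ℤ_[p], N - T ^ 2 * (MvPolynomial.X 0 * MvPolynomial.X 1) ^ p =
      MvPolynomial.C (p : ℤ_[p]) * G := by
    have : MvPolynomial.C (p : ℤ_[p]) ∣ N - T ^ 2 * (MvPolynomial.X 0 * MvPolynomial.X 1) ^ p := by
      rw [MvPolynomial.C_dvd_iff_dvd_coeff]
      intro d
      rw [← toZMod_zero_iff, ← MvPolynomial.coeff_map]
      have h0 : redP p (N - T ^ 2 * (MvPolynomial.X 0 * MvPolynomial.X 1) ^ p) = 0 := by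
        rw [map_sub, map_mul, map_pow, map_pow, map_mul, hNbar]
        simp only [redP, MvPolynomial.map_X]
        rw [sub_self]
      rw [redP] at h0
      rw [h0, MvPolynomial.coeff_zero]
    exact this
  have hp0 : (p : ℤ_[p]) ≠ 0 := by exact_mod_cast hp.out.ne_zero
  have hGi : Iso G (6 * p - 1) := by
    intro d hd
    refine iso_sub hN (hwt _ _ hT) (d := d) ?_
    rw [hG, MvPolynomial.coeff_C_mul]
    exact mul_ne_zero hp0 hd
  have hNG : N = T ^ 2 * (MvPolynomial.X 0 * MvPolynomial.X 1) ^ p + (p : P2 ℤ_[p]) * G := by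
    have : (MvPolynomial.C (p : ℤ_[p]) : P2 ℤ_[p]) = (p : P2 ℤ_[p]) := map_natCast _ _
    rw [← this, ← hG]; ring
  refine ⟨G, hGi, hNG, ?_⟩
  -- the derivative
  set P : ℤ_[p]⟦X⟧ := ((p : ℕ) : ℤ_[p]⟦X⟧) with hPdef
  have hPne : P ≠ 0 := by
    intro h
    have h1 := congrArg (coeff 0) h
    rw [hPdef, ← map_natCast (PowerSeries.C (R := ℤ_[p])) p, coeff_zero_C, map_zero] at h1
    exact hp0 h1
  set s : ℤ_[p]⟦X⟧ := q4 ℤ_[p] * q6 ℤ_[p] with hs
  set t : ℤ_[p]⟦X⟧ := ev ℤ_[p] T with ht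
  set g : ℤ_[p]⟦X⟧ := ev ℤ_[p] G with hg
  have hn : ev ℤ_[p] N = t ^ 2 * s ^ p + P * g := by
    rw [hNG, map_add, map_mul, map_mul, map_pow, map_pow, map_mul, ev_X0, ev_X1, map_natCast]
  have htht : th t = P * th ε := by
    rw [hevT, th_add, th_one, zero_add, hPdef, th_nat_mul]
  have a1 : th (ev ℤ_[p] N) = P * (2 * t * th ε * s ^ p + t ^ 2 * s ^ (p - 1) * th s + th g) := by
    rw [hn, th_add, th_mul, hPdef, th_nat_mul, th_pow, th_pow, htht]
    rw [hPdef]
    push_cast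
    ring
  have a2 : th (fr p (qD ℤ_[p])) = P * fr p (th (qD ℤ_[p])) := fth _
  have a3 : th (qD ℤ_[p] ^ p) = P * (qD ℤ_[p] ^ (p - 1) * th (qD ℤ_[p])) := by
    rw [th_pow]; ring
  have a4 : th (fr p s) = P * fr p (th s) := fth _
  have a5 : th (P ^ 2 * V) = P * (P * th V) := by
    rw [pow_two, mul_assoc, hPdef, th_nat_mul, th_nat_mul]
  have hmain : P * ((2 * t * th ε * s ^ p + t ^ 2 * s ^ (p - 1) * th s + th g) * fr p (qD ℤ_[p]) +
      ev ℤ_[p] N * fr p (th (qD ℤ_[p]))) =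
      P * (qD ℤ_[p] ^ (p - 1) * th (qD ℤ_[p]) * fr p s + qD ℤ_[p] ^ p * fr p (th s) + P * th V) := by
    have h := congrArg th hNeq
    rw [th_mul, th_add, th_mul, a1, a2, a3, a4, a5] at h
    linear_combination h
  have hmain2 := congrArg (redS p) (mul_left_cancel₀ hPne hmain)
  simp only [map_add, map_mul, map_pow, hredfr, hrth, hrD, map_ofNat, hP0, zero_mul, add_zero] at hmain2
  have hs' : redS p s = q4 (ZMod p) * q6 (ZMod p) := by rw [hs, map_mul, hr4, hr6]
  have ht' : redS p t = 1 := by rw [ht, ← ev_red, hevTb]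
  have hg' : redS p g = ev (ZMod p) (redP p G) := by rw [hg, ev_red]
  have hN' : redS p (ev ℤ_[p] N) = (q4 (ZMod p) * q6 (ZMod p)) ^ p := by rw [← ev_red, hevN]
  rw [hs', ht', hg', hN', rth hRam] at hmain2
  set σ : (ZMod p)⟦X⟧ := q4 (ZMod p) * q6 (ZMod p) with hσ
  set D : (ZMod p)⟦X⟧ := qD (ZMod p) with hD
  set u : (ZMod p)⟦X⟧ := q2 (ZMod p) with hu
  -- Frobenius of numbers
  have fnat : ∀ n : ℕ, ((n : (ZMod p)⟦X⟧)) ^ p = n := by
    intro n
    rw [← hFrP]
    induction n with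
    | zero =>
      rw [Nat.cast_zero, hFrP, zero_pow hp.out.ne_zero]
    | succ n ih => rw [Nat.cast_succ, gadd, ih, gone]
  have hDer5 := (hDer (ZMod p) (MvPolynomial.X 0 * MvPolynomial.X 1) 5 (hXX _)).1
  rw [map_mul, ev_X0, ev_X1] at hDer5
  set Ds : (ZMod p)⟦X⟧ := ev (ZMod p) (DD (ZMod p) (MvPolynomial.X 0 * MvPolynomial.X 1)) with hDs
  have h12 : 12 * (th σ) ^ p = 10 * u ^ p * σ ^ p + Ds ^ p := by
    have h1 : (12 * th σ) ^ p = 12 * (th σ) ^ p := by
      rw [mul_pow]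
      have := fnat 12
      push_cast at this
      rw [this]
    rw [← h1, hDer5]
    have h2 : ∀ a b : (ZMod p)⟦X⟧, (a + b) ^ p = a ^ p + b ^ p := by
      intro a b
      rw [← hFrP, ← hFrP, ← hFrP, gadd]
    rw [h2, mul_pow, mul_pow]
    have := fnat 10
    push_cast at this ⊢
    norm_num
    rw [this]
  have hε' : 12 * th (redS p ε) = u - u ^ p := by rw [hε, hFrP]
  -- cancel `D ^ p`
  have hDp : D ^ p = D ^ (p - 1) * D := by
    rw [← pow_succ, Nat.sub_add_cancel hp.out.one_le]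
  have hσp : σ ^ p = σ ^ (p - 1) * σ := by
    rw [← pow_succ, Nat.sub_add_cancel hp.out.one_le]
  have hfin : D ^ p * (12 * th (ev (ZMod p) (redP p G))) =
      D ^ p * (Ds ^ p - σ ^ (p - 1) * Ds) := by
    have e5 : 12 * th σ = 10 * u * σ + Ds := by
      rw [hDer5]; push_cast; ring
    have e6 : (u * D) ^ p = u ^ p * D ^ p := mul_pow _ _ _
    rw [e6] at hmain2
    have e7 : D ^ (p - 1) * (u * D) = u * D ^ p := by rw [hDp]; ring
    rw [e7] at hmain2
    linear_combination 12 * hmain2 - 2 * σ ^ p * D ^ p * hε' + D ^ p * h12 -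
      σ ^ (p - 1) * D ^ p * e5 + 10 * u * D ^ p * hσp
  exact mul_left_cancel₀ (pow_ne_zero p hqD0) hfin

end Pool.Agent.Q279.SC.JCOREA
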