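import Pool.Agent.H501.G.R_pool_sql_team_seeded_3997aac3.Q279.SC.J.Bas298

/-! Job DER of project SC (author helper279). -/

set_option autoImplicit false

namespace Pool.Agent.Q279.SC.JDER

open PowerSeries Pool.Agent.Q279.SC.B298

/-- the formula with the Euler operator, for all polynomials -/
theorem key (hRam : Ram) (R : Type) [CommRing R] (F : P2 R) :
    12 * th (ev R F) = 2 * q2 R * ev R (2 * (MvPolynomial.X 0 * MvPolynomial.pderiv 0 F) +
      3 * (MvPolynomial.X 1 * MvPolynomial.pderiv 1 F)) + ev R (DD R F) := by
  induction F using MvPolynomial.induction_on with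
  | C a =>
    rw [ev_C, th_C, DD_eq]
    simp
  | add F G hF hG =>
    rw [map_add, th_add, mul_add, hF, hG]
    simp only [map_add, map_mul, map_ofNat]
    ring
  | mul_X F i hF =>
    fin_cases i
    · simp only [Fin.zero_eta, Fin.isValue] at *
      rw [map_mul, ev_X0, th_mul]
      have h1 := r4 (R := R) hRam
      rw [Derivation.leibniz, Derivation.leibniz, Derivation.leibniz,
        MvPolynomial.pderiv_X_self, MvPolynomial.pderiv_X_of_ne (by decide), DD_X0]
      simp only [smul_eq_mul, map_add, map_mul, map_ofNat, map_neg, mul_zero, zero_add,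
        mul_one, ev_X0, ev_X1] at hF ⊢
      linear_combination (4 * ev R F) * h1 + (q4 R) * hF
    · simp only [Fin.mk_one, Fin.isValue] at *
      rw [map_mul, ev_X1, th_mul]
      have h1 := r6 (R := R) hRam
      rw [Derivation.leibniz, Derivation.leibniz, Derivation.leibniz,
        MvPolynomial.pderiv_X_self, MvPolynomial.pderiv_X_of_ne (by decide), DD_X1]
      simp only [smul_eq_mul, map_add, map_mul, map_pow, map_ofNat, map_neg, mul_zero,
        zero_add, mul_one, ev_X0, ev_X1] at hF ⊢
      linear_combination (6 * ev R F) * h1 + (q6 R) * hF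

theorem main : JDer := by
  intro hRam R _ F w hF
  refine ⟨?_, iso_DD hF⟩
  have h := key hRam R F
  rw [euler hF, map_mul, map_natCast] at h
  rw [h]
  push_cast
  ring

end Pool.Agent.Q279.SC.JDER
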