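import Pool.Agent.H501.G.R_pool_sql_team_seeded_3997aac3.Q279.SC.Stm

/-!
# Project SC, job FRP: modulo `p` the substitution `q ↦ q^p` is the Frobenius
-/

set_option autoImplicit false

namespace Pool.Agent.Q279.SC.JFRP

open PowerSeries Pool.Agent.Q279.SC

/-- `fr p` is `PowerSeries.expand p` -/
theorem fr_eq {p : ℕ} (hp : p ≠ 0) {R : Type} [CommRing R] (f : R⟦X⟧) :
    fr p f = expand p hp f := by
  ext n
  rw [fr, coeff_mk]
  split_ifs with h
  · obtain ⟨k, rfl⟩ := h
    rw [Nat.mul_div_cancel_left k (Nat.pos_of_ne_zero hp), coeff_expand_mul]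
  · rw [coeff_expand_of_not_dvd p hp _ h]

/-- Job FRP. -/
theorem main : FrP := by
  intro p _ f
  have hp0 := (Fact.out : p.Prime).ne_zero
  rw [fr_eq hp0]
  have h := MvPowerSeries.map_frobenius_expand (R := ZMod p) (σ := Unit) p hp0 (f := f)
  have h2 : frobenius (ZMod p) p = RingHom.id (ZMod p) := by
    ext x
    simp
  rw [h2, MvPowerSeries.map_id] at h
  exact h

end Pool.Agent.Q279.SC.JFRP
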