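import Pool.Agent.H501.G.R_pool_sql_team_seeded_3997aac3.Q279.SC.J.Bas298

/-! Job HS2 of project SC (author helper279). -/

set_option autoImplicit false

namespace Pool.Agent.Q279.SC.JHS2

open Pool.Agent.Q279.SC.B298

noncomputable section

variable (R : Type) [CommRing R]

/-- `DD` on the coefficients -/
def DC : Derivation R (Polynomial (P2 R)) (Polynomial (P2 R)) :=
  PolynomialModule.equivPolynomialSelf.compDer (DD R).mapCoeffs

theorem coeff_DC (g : Polynomial (P2 R)) (i : ℕ) : (DC R g).coeff i = DD R (g.coeff i) := rfl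

theorem DC_C (a : P2 R) : DC R (Polynomial.C a) = Polynomial.C (DD R a) := by
  ext1 i
  rw [coeff_DC, Polynomial.coeff_C, Polynomial.coeff_C]
  split_ifs with h
  · rfl
  · rw [map_zero]

theorem DC_X : DC R (Polynomial.X) = 0 := by
  ext1 i
  rw [coeff_DC, Polynomial.coeff_X]
  split_ifs with h
  · rw [Polynomial.coeff_zero, Derivation.map_one_eq_zero]
  · rw [Polynomial.coeff_zero, map_zero]

theorem DC_Xpow (n : ℕ) : DC R (Polynomial.X ^ n) = 0 := by
  rw [Derivation.leibniz_pow, DC_X, smul_zero, smul_zero]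

theorem DC_nat (n : ℕ) (g : Polynomial (P2 R)) : DC R ((n : Polynomial (P2 R)) * g) =
    (n : Polynomial (P2 R)) * DC R g := by
  rw [Derivation.leibniz, Derivation.map_natCast, smul_zero, add_zero, smul_eq_mul]

theorem DC_mul (f g : Polynomial (P2 R)) : DC R (f * g) = f * DC R g + g * DC R f := by
  rw [Derivation.leibniz, smul_eq_mul, smul_eq_mul]

/-- `E_4` -/
def cQ : Polynomial (P2 R) := Polynomial.C (MvPolynomial.X 0)

/-- `E_6` -/
def cR : Polynomial (P2 R) := Polynomial.C (MvPolynomial.X 1)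

theorem DC_cQ : DC R (cQ R) = -4 * cR R := by
  rw [cQ, DC_C, DD_X0, cR]
  simp only [map_mul, map_ofNat, map_neg]

theorem DC_cR : DC R (cR R) = -6 * cQ R ^ 2 := by
  rw [cR, DC_C, DD_X1, cQ]
  simp only [map_mul, map_ofNat, map_neg, map_pow]

theorem cub_eq : cub R = Polynomial.X ^ 3 - 27 * (cQ R * Polynomial.X) - 54 * cR R := by
  rw [cub, cQ, cR]
  simp only [map_mul, map_ofNat]
  ring

theorem DC_cub : DC R (cub R) = 108 * (cR R * Polynomial.X) + 324 * cQ R ^ 2 := by
  rw [cub_eq, map_sub, map_sub, DC_Xpow]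
  have h1 := DC_nat R 27 (cQ R * Polynomial.X)
  have h2 := DC_nat R 54 (cR R)
  push_cast at h1 h2
  rw [h1, h2, DC_mul, DC_X, DC_cQ, DC_cR]
  ring

theorem DC_DC_cub : DC R (DC R (cub R)) =
    -(648 * (cQ R ^ 2 * Polynomial.X)) - 2592 * (cQ R * cR R) := by
  rw [DC_cub, map_add]
  have h1 := DC_nat R 108 (cR R * Polynomial.X)
  have h2 := DC_nat R 324 (cQ R * cQ R)
  push_cast at h1 h2
  rw [h1, pow_two, h2, DC_mul, DC_mul, DC_X, DC_cQ, DC_cR]
  ring

/-- the auxiliary polynomial -/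
def rr : Polynomial (P2 R) :=
  -(2 * (cQ R * Polynomial.X ^ 4)) - 54 * (cQ R ^ 2 * Polynomial.X ^ 2) -
    216 * (cQ R * cR R * Polynomial.X) - 1944 * cR R ^ 2 + 1944 * cQ R ^ 3

theorem d_cQ : Polynomial.derivative (cQ R) = 0 := by rw [cQ, Polynomial.derivative_C]
theorem d_cR : Polynomial.derivative (cR R) = 0 := by rw [cR, Polynomial.derivative_C]

theorem d_cub : Polynomial.derivative (cub R) = 3 * Polynomial.X ^ 2 - 27 * cQ R := by
  rw [cub_eq]
  simp [Polynomial.derivative_pow, Polynomial.derivative_mul, d_cQ, d_cR]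
  simp only [map_ofNat]

theorem d_rr : Polynomial.derivative (rr R) =
    -(8 * (cQ R * Polynomial.X ^ 3)) - 108 * (cQ R ^ 2 * Polynomial.X) - 216 * (cQ R * cR R) := by
  rw [rr]
  simp [Polynomial.derivative_pow, Polynomial.derivative_mul, d_cQ, d_cR]
  simp only [map_ofNat]
  ring

theorem ident : 3 * (DC R (cub R)) ^ 2 - 2 * cub R * DC R (DC R (cub R)) +
    4 * cQ R * cub R ^ 2 =
    -6 * Polynomial.derivative (cub R) * rr R + 4 * cub R * Polynomial.derivative (rr R) := by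
  rw [DC_DC_cub, DC_cub, d_cub, d_rr, rr, cub_eq]
  ring

theorem main : Hs2 := by
  intro p hp hp5
  have hodd : 2 * ((p - 1) / 2) = p - 1 := by
    rcases hp.out.eq_two_or_odd with h | h <;> omega
  obtain ⟨n, hn⟩ : ∃ n, (p - 1) / 2 = n + 2 := ⟨(p - 1) / 2 - 2, by omega⟩
  have hp0 : ((p : ℕ) : Polynomial (P2 (ZMod p))) = 0 := by
    have h1 : ((p : ℕ) : P2 (ZMod p)) = 0 := by
      rw [← map_natCast (MvPolynomial.C (R := ZMod p) (σ := Fin 2)) p, ZMod.natCast_self, map_zero]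
    rw [← map_natCast (Polynomial.C (R := P2 (ZMod p))) p, h1, map_zero]
  have hnc : 2 * (n : Polynomial (P2 (ZMod p))) = -5 := by
    have h1 : ((2 * (n + 2) : ℕ) : Polynomial (P2 (ZMod p))) = ((p - 1 : ℕ)) := by
      rw [← hn, hodd]
    rw [Nat.cast_sub (by omega), hp0] at h1
    push_cast at h1
    linear_combination h1
  set f := cub (ZMod p) with hf
  have h1 : DC (ZMod p) (f ^ (n + 2)) = ((n + 2 : ℕ) : Polynomial (P2 (ZMod p))) *
      (f ^ (n + 1) * DC (ZMod p) f) := by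
    rw [Derivation.leibniz_pow, nsmul_eq_mul, smul_eq_mul]
    rfl
  have h2 : DC (ZMod p) (f ^ (n + 1)) = ((n + 1 : ℕ) : Polynomial (P2 (ZMod p))) *
      (f ^ n * DC (ZMod p) f) := by
    rw [Derivation.leibniz_pow, nsmul_eq_mul, smul_eq_mul]
    rfl
  have h3 : DC (ZMod p) (DC (ZMod p) (f ^ (n + 2))) = ((n + 2 : ℕ) : Polynomial (P2 (ZMod p))) *
      (f ^ (n + 1) * DC (ZMod p) (DC (ZMod p) f) + DC (ZMod p) f *
        (((n + 1 : ℕ) : Polynomial (P2 (ZMod p))) * (f ^ n * DC (ZMod p) f))) := by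
    rw [h1, DC_nat, DC_mul, h2]
  have h4 : Polynomial.derivative (f ^ (n + 1) * rr (ZMod p)) =
      ((n + 1 : ℕ) : Polynomial (P2 (ZMod p))) * f ^ n * Polynomial.derivative f * rr (ZMod p) +
      f ^ (n + 1) * Polynomial.derivative (rr (ZMod p)) := by
    rw [Polynomial.derivative_mul, Polynomial.derivative_pow]
    simp only [map_natCast, Nat.add_sub_cancel]
  have hid := ident (ZMod p)
  rw [← hf] at hid
  have hmain : 4 * (DC (ZMod p) (DC (ZMod p) (f ^ (n + 2))) +
      cQ (ZMod p) * f ^ (n + 2)) =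
      4 * Polynomial.derivative (f ^ (n + 1) * rr (ZMod p)) := by
    rw [h3, h4]
    push_cast
    have e1 : f ^ (n + 2) = f ^ n * f ^ 2 := by rw [pow_add]
    have e2 : f ^ (n + 1) = f ^ n * f := by rw [pow_succ]
    rw [e1, e2]
    linear_combination f ^ n * hid + (2 * f ^ n * f * DC (ZMod p) (DC (ZMod p) f) -
      2 * f ^ n * Polynomial.derivative f * rr (ZMod p) +
      (DC (ZMod p) f) ^ 2 * f ^ n * (2 * (n : Polynomial (P2 (ZMod p))) + 1)) * hnc
  have hc := congrArg (fun P => Polynomial.coeff P (p - 1)) hmain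
  have h4c : ∀ P : Polynomial (P2 (ZMod p)), (4 * P).coeff (p - 1) = 4 * P.coeff (p - 1) := by
    intro P
    have : (4 : Polynomial (P2 (ZMod p))) = Polynomial.C 4 := by simp only [map_ofNat]
    rw [this, Polynomial.coeff_C_mul]
  rw [h4c, h4c, Polynomial.coeff_add, coeff_DC, coeff_DC, cQ, Polynomial.coeff_C_mul,
    Polynomial.coeff_derivative] at hc
  have hp1 : (((p - 1 : ℕ) : P2 (ZMod p)) + 1) = 0 := by
    have : ((p - 1 + 1 : ℕ) : P2 (ZMod p)) = ((p : ℕ) : P2 (ZMod p)) := by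
      rw [Nat.sub_add_cancel hp.out.one_le]
    push_cast at this
    rw [this]
    rw [← map_natCast (MvPolynomial.C (R := ZMod p) (σ := Fin 2)) p, ZMod.natCast_self, map_zero]
  rw [hp1, mul_zero, mul_zero] at hc
  have h40 : (4 : P2 (ZMod p)) ≠ 0 := by
    intro h
    have h2 : (MvPolynomial.C ((4 : ℕ) : ZMod p) : P2 (ZMod p)) = 0 := by
      rw [map_natCast]; exact_mod_cast h
    rw [MvPolynomial.C_eq_zero, ZMod.natCast_eq_zero_iff] at h2
    have := Nat.le_of_dvd (by norm_num) h2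
    omega
  rcases mul_eq_zero.1 hc with h | h
  · exact absurd h h40
  · rw [hs, hn]
    linear_combination h

end

end Pool.Agent.Q279.SC.JHS2
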