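import Pool.Agent.H501.G.R_pool_sql_team_seeded_3997aac3.Q279.SC.J.AODE

/-! Job HS3 of project SC (author helper279). -/

set_option autoImplicit false

namespace Pool.Agent.Q279.SC.JHS3

open PowerSeries Pool.Agent.Q279.SC.B298 Pool.Agent.Q279.SC.JAODE

theorem const_ev (R : Type) [CommRing R] (F : P2 R) : constantCoeff (ev R F) = at2 1 1 F := by
  induction F using MvPolynomial.induction_on with
  | C a => rw [ev_C, at2, MvPolynomial.eval_C]; simp
  | add F G hF hG => rw [map_add, map_add, hF, hG, at2, at2, at2, map_add]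
  | mul_X F i hF =>
    rw [map_mul, map_mul, hF, at2, at2, map_mul]
    congr 1
    fin_cases i
    · simp [ev_X0, c4]
    · simp [ev_X1, c6]

/-- power sums over `ZMod p` -/
theorem psum (p : ℕ) [hp : Fact p.Prime] (i : ℕ) (hi : i < 2 * (p - 1)) :
    ∑ a : ZMod p, a ^ i = if i = p - 1 then -1 else 0 := by
  by_cases h1 : i < p - 1
  · rw [if_neg (by omega)]
    have := FiniteField.sum_pow_lt_card_sub_one (ZMod p) i (by rw [ZMod.card]; exact h1)
    exact this
  obtain ⟨j, hj⟩ : ∃ j, i = (p - 1) + j := ⟨i - (p - 1), by omega⟩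
  by_cases hj0 : j = 0
  · rw [if_pos (by omega), hj, hj0, add_zero]
    have h2 : ∀ a : ZMod p, a ^ (p - 1) = 1 - if a = 0 then 1 else 0 := by
      intro a
      split_ifs with ha
      · rw [ha, zero_pow (by have := hp.out.two_le; omega)]; ring
      · rw [ZMod.pow_card_sub_one_eq_one ha]; ring
    rw [Finset.sum_congr rfl fun a _ => h2 a, Finset.sum_sub_distrib]
    simp
  · rw [if_neg (by omega)]
    have h2 : ∀ a : ZMod p, a ^ i = a ^ j := by
      intro a
      by_cases ha : a = 0
      · rw [ha, zero_pow (by omega), zero_pow hj0]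
      · rw [hj, pow_add, ZMod.pow_card_sub_one_eq_one ha, one_mul]
    rw [Finset.sum_congr rfl fun a _ => h2 a]
    exact FiniteField.sum_pow_lt_card_sub_one (ZMod p) j (by rw [ZMod.card]; omega)

theorem coeff_eq (p : ℕ) [hp : Fact p.Prime] (g : Polynomial (ZMod p))
    (hg : g.natDegree < 2 * (p - 1)) : g.coeff (p - 1) = -∑ a : ZMod p, g.eval a := by
  have h1 : ∀ a : ZMod p, g.eval a = ∑ i ∈ Finset.range (2 * (p - 1)), g.coeff i * a ^ i :=
    fun a => Polynomial.eval_eq_sum_range' hg a
  rw [Finset.sum_congr rfl fun a _ => h1 a, Finset.sum_comm]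
  have h2 : ∀ i ∈ Finset.range (2 * (p - 1)), ∑ a : ZMod p, g.coeff i * a ^ i =
      if i = p - 1 then -g.coeff i else 0 := by
    intro i hi
    rw [← Finset.mul_sum, psum p i (Finset.mem_range.1 hi)]
    split_ifs <;> ring
  rw [Finset.sum_congr rfl h2, Finset.sum_ite_eq' (Finset.range (2 * (p - 1))) (p - 1)
    (fun i => -g.coeff i), if_pos, neg_neg]
  have := hp.out.two_le
  exact Finset.mem_range.2 (by omega)

theorem hs_one (p : ℕ) [hp : Fact p.Prime] (hp5 : 5 ≤ p) : at2 1 1 (hs p) ≠ 0 := by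
  have h2 := two_half p hp.out hp5
  set n := (p - 1) / 2 with hn
  have h1 : at2 1 1 (hs p) = (((Polynomial.X + Polynomial.C 3) ^ 2 *
      (Polynomial.X - Polynomial.C 6)) ^ n : Polynomial (ZMod p)).coeff (p - 1) := by
    rw [at2, hs, ← Polynomial.coeff_map, Polynomial.map_pow]
    congr 2
    rw [cub]
    simp only [Polynomial.map_sub, Polynomial.map_pow, Polynomial.map_mul, Polynomial.map_X,
      Polynomial.map_C, map_mul, map_ofNat, MvPolynomial.eval_X, Matrix.cons_val_zero,
      Matrix.cons_val_one, Polynomial.map_ofNat, map_one, mul_one]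
    ring
  have hdeg : (((Polynomial.X + Polynomial.C 3) ^ 2 *
      (Polynomial.X - Polynomial.C 6)) ^ n : Polynomial (ZMod p)).natDegree < 2 * (p - 1) := by
    have e : (((Polynomial.X + Polynomial.C 3) ^ 2 *
      (Polynomial.X - Polynomial.C 6)) : Polynomial (ZMod p)).natDegree ≤ 3 := by
      refine Polynomial.natDegree_mul_le.trans ?_
      have e1 := Polynomial.natDegree_pow_le (p := (Polynomial.X + Polynomial.C 3 : Polynomial (ZMod p)))
        (n := 2)
      rw [Polynomial.natDegree_X_add_C] at e1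
      rw [Polynomial.natDegree_X_sub_C]
      omega
    have e2 := (Polynomial.natDegree_pow_le (p := (((Polynomial.X + Polynomial.C 3) ^ 2 *
      (Polynomial.X - Polynomial.C 6)) : Polynomial (ZMod p))) (n := n))
    have e3 : n * (((Polynomial.X + Polynomial.C 3) ^ 2 *
      (Polynomial.X - Polynomial.C 6)) : Polynomial (ZMod p)).natDegree ≤ n * 3 :=
      Nat.mul_le_mul_left _ e
    omega
  rw [h1, coeff_eq p _ hdeg]
  have h3 : ∀ a : ZMod p, (((Polynomial.X + Polynomial.C 3) ^ 2 *
      (Polynomial.X - Polynomial.C 6)) ^ n : Polynomial (ZMod p)).eval a =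
      (a - 6) ^ n - if a = -3 then (-9) ^ n else 0 := by
    intro a
    simp only [Polynomial.eval_pow, Polynomial.eval_mul, Polynomial.eval_add, Polynomial.eval_X,
      Polynomial.eval_C, Polynomial.eval_sub]
    rw [mul_pow, ← pow_mul, h2]
    split_ifs with ha
    · rw [ha, neg_add_cancel, zero_pow (by omega), zero_mul]
      norm_num
    · have : a + 3 ≠ 0 := fun h => ha (by linear_combination h)
      rw [ZMod.pow_card_sub_one_eq_one this, one_mul, sub_zero]
  rw [Finset.sum_congr rfl fun a _ => h3 a, Finset.sum_sub_distrib, Finset.sum_ite_eq' Finset.univ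
    (-3 : ZMod p) (fun _ => (-9 : ZMod p) ^ n), if_pos (Finset.mem_univ _)]
  have h4 : ∑ a : ZMod p, (a - 6) ^ n = 0 := by
    rw [← FiniteField.sum_pow_lt_card_sub_one (ZMod p) n (by rw [ZMod.card]; omega)]
    exact Fintype.sum_equiv (Equiv.subRight 6) _ _ fun a => rfl
  rw [h4, zero_sub, neg_neg]
  refine pow_ne_zero n ?_
  intro h
  have h5 : ((9 : ℕ) : ZMod p) = 0 := by
    push_cast
    linear_combination -h
  rw [ZMod.natCast_eq_zero_iff] at h5
  have h6 : p ∣ 3 ^ 2 := h5
  have := Nat.le_of_dvd (by norm_num) (hp.out.dvd_of_dvd_pow h6)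
  omega

theorem main : JHs3 := by
  intro hRam hDer hSt hH1 hH2 p hp hp5 A hA hev
  have h2 := two_half p hp.out hp5
  have hi := hH1 p hp5
  have hode := hH2 p hp5
  have d1 := (hDer (ZMod p) (hs p) _ hi).1
  have d2 := (hDer (ZMod p) (DD (ZMod p) (hs p)) _ (iso_DD hi)).1
  have e1 : 2 * ((p - 1) / 2 + 1) = p + 1 := by omega
  rw [h2, Nat.cast_sub (by omega), cast_p] at d1
  rw [e1, Nat.cast_add, cast_p, hode, map_mul, map_neg, ev_X0] at d2
  push_cast at d1 d2
  set y := ev (ZMod p) (hs p) with hy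
  set u := ev (ZMod p) (DD (ZMod p) (hs p)) with hu
  have r2' := r2 (R := ZMod p) hRam
  have h144 : 144 * th (th y) = 0 := by
    have t12 : ∀ f : (ZMod p)⟦X⟧, th (12 * f) = 12 * th f := by
      intro f
      have := th_nat_mul 12 f
      push_cast at this
      exact this
    have h3 := congrArg th d1
    rw [t12, th_add, th_mul, zero_sub, th_mul, th_neg, th_one] at h3
    linear_combination 12 * h3 - y * r2' - q2 (ZMod p) * d1 + d2
  have hzero : ∀ n : ℕ, 0 < n → n < p → coeff n y = 0 := by
    intro n hn0 hnp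
    have h3 := congrArg (coeff n) h144
    have e12 : (144 : (ZMod p)⟦X⟧) = PowerSeries.C (144 : ZMod p) := by rw [map_ofNat]
    rw [e12, coeff_C_mul, coeff_th, coeff_th, map_zero] at h3
    have hn : (n : ZMod p) ≠ 0 := by
      rw [Ne, ZMod.natCast_eq_zero_iff]
      intro h; have := Nat.le_of_dvd hn0 h; omega
    have h12 : (144 : ZMod p) ≠ 0 := by
      intro h
      have h4 : ((144 : ℕ) : ZMod p) = 0 := by exact_mod_cast h
      rw [ZMod.natCast_eq_zero_iff] at h4
      have h5 : p ∣ 2 ^ 4 * 3 ^ 2 := h4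
      rcases (Nat.Prime.dvd_mul hp.out).1 h5 with h | h
      · have := Nat.le_of_dvd (by norm_num) (hp.out.dvd_of_dvd_pow h); omega
      · have := Nat.le_of_dvd (by norm_num) (hp.out.dvd_of_dvd_pow h); omega
    rcases mul_eq_zero.1 h3 with h | h
    · exact absurd h h12
    · rcases mul_eq_zero.1 h with h | h
      · exact absurd h hn
      · rcases mul_eq_zero.1 h with h | h
        · exact absurd h hn
        · exact h
  refine ⟨at2 1 1 (hs p), hs_one p hp5, ?_⟩
  have hc : constantCoeff y = at2 1 1 (hs p) := const_ev _ _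
  have h0 := hSt p hp5 (hs p - MvPolynomial.C (at2 1 1 (hs p)) * A) ((p - 1) / 2) p
    (iso_sub hi (iso_Cmul _ hA)) (by omega) (by
      rw [map_sub, map_mul, hev, mul_one, ev_C, PowerSeries.X_pow_dvd_iff]
      intro m hm
      rw [map_sub, coeff_C]
      by_cases hm0 : m = 0
      · rw [if_pos hm0, hm0, coeff_zero_eq_constantCoeff_apply, hc, sub_self]
      · rw [if_neg hm0, hzero m (by omega) hm, sub_zero])
  exact sub_eq_zero.1 h0

end Pool.Agent.Q279.SC.JHS3
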