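import Pool.Agent.H501.G.R_pool_sql_team_seeded_3997aac3.Q279.SC.J.Bas298

/-! Job SIMPLE of project SC (author helper279). -/

set_option autoImplicit false

namespace Pool.Agent.Q279.SC.JSIMPLE

open Pool.Agent.Q279.SC.B298

noncomputable section

variable {k : Type} [Field k]

/-- the curve `v ↦ (x, y v)` -/
def ph (x y : k) : P2 k →ₐ[k] Polynomial k :=
  MvPolynomial.aeval ![Polynomial.C x, Polynomial.C y * Polynomial.X]

theorem ph_X0 (x y : k) : ph x y (MvPolynomial.X 0) = Polynomial.C x := by simp [ph]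

theorem ph_X1 (x y : k) : ph x y (MvPolynomial.X 1) = Polynomial.C y * Polynomial.X := by simp [ph]

theorem ph_C (x y a : k) : ph x y (MvPolynomial.C a) = Polynomial.C a := by
  rw [ph, MvPolynomial.aeval_C]; rfl

theorem ph_deriv (x y : k) (F : P2 k) : Polynomial.derivative (ph x y F) =
    Polynomial.C y * ph x y (MvPolynomial.pderiv 1 F) := by
  induction F using MvPolynomial.induction_on with
  | C a => rw [ph_C, MvPolynomial.pderiv_C, map_zero, mul_zero, Polynomial.derivative_C]
  | add F G hF hG => rw [map_add, map_add, hF, hG, map_add, map_add, mul_add]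
  | mul_X F i hF =>
    rw [Derivation.leibniz, map_mul, Polynomial.derivative_mul, hF]
    fin_cases i
    · simp only [Fin.zero_eta, Fin.isValue]
      rw [MvPolynomial.pderiv_X_of_ne (by decide), ph_X0]
      simp [ph_X0]
      ring
    · simp only [Fin.mk_one, Fin.isValue]
      rw [MvPolynomial.pderiv_X_self, ph_X1]
      simp [ph_X1]
      ring

theorem ph_eval (x y : k) (F : P2 k) : Polynomial.eval 1 (ph x y F) = at2 x y F := by
  induction F using MvPolynomial.induction_on with
  | C a => rw [ph_C, Polynomial.eval_C, at2, MvPolynomial.eval_C]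
  | add F G hF hG => rw [map_add, Polynomial.eval_add, hF, hG, at2, at2, at2, map_add]
  | mul_X F i hF =>
    rw [map_mul, Polynomial.eval_mul, hF, at2, at2, map_mul]
    congr 1
    fin_cases i
    · simp [ph_X0]
    · simp [ph_X1]

theorem ph_sum (x y : k) (F : P2 k) : ph x y F =
    ∑ d ∈ F.support, Polynomial.C (F.coeff d * x ^ d 0 * y ^ d 1) * Polynomial.X ^ d 1 := by
  conv_lhs => rw [MvPolynomial.as_sum F, map_sum]
  refine Finset.sum_congr rfl fun d _ => ?_
  rw [MvPolynomial.monomial_eq, Finsupp.prod_fintype _ _ (by simp), Fin.prod_univ_two, map_mul,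
    map_mul, map_pow, map_pow, ph_C, ph_X0, ph_X1, mul_pow]
  simp only [map_mul, map_pow]
  ring

theorem wt (F : P2 k) (w : ℕ) (hF : Iso F w) (d : Fin 2 →₀ ℕ) (hd : d ∈ F.support) :
    2 * d 0 + 3 * d 1 = w := by
  have h := hF (MvPolynomial.mem_support_iff.1 hd)
  rw [Finsupp.weight_apply, Finsupp.sum_fintype _ _ (by simp), Fin.sum_univ_two] at h
  simp only [smul_eq_mul, Matrix.cons_val_zero, Matrix.cons_val_one] at h
  omega

theorem ph_degree (x y : k) (F : P2 k) (w : ℕ) (hF : Iso F w) : (ph x y F).natDegree ≤ w := by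
  rw [ph_sum]
  refine Polynomial.natDegree_sum_le_of_forall_le _ _ fun d hd => ?_
  refine (Polynomial.natDegree_C_mul_X_pow_le _ _).trans ?_
  have := wt F w hF d hd
  omega

theorem ph_ne_zero (x y : k) (hx : x ≠ 0) (hy : y ≠ 0) (F : P2 k) (w : ℕ) (hF : Iso F w)
    (h0 : F ≠ 0) : ph x y F ≠ 0 := by
  classical
  obtain ⟨d, hd⟩ := MvPolynomial.support_nonempty.2 h0
  intro h
  have h1 := congrArg (fun P => Polynomial.coeff P (d 1)) h
  simp only [Polynomial.coeff_zero] at h1
  rw [ph_sum, Polynomial.finsetSum_coeff, Finset.sum_eq_single d] at h1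
  · rw [Polynomial.coeff_C_mul_X_pow, if_pos rfl] at h1
    have h2 := MvPolynomial.mem_support_iff.1 hd
    exact (mul_ne_zero (mul_ne_zero h2 (pow_ne_zero _ hx)) (pow_ne_zero _ hy)) h1
  · intro e he hed
    rw [Polynomial.coeff_C_mul_X_pow, if_neg]
    intro h3
    apply hed
    have h4 := wt F w hF d hd
    have h5 := wt F w hF e he
    ext i
    fin_cases i
    · simp only [Fin.zero_eta, Fin.isValue]; omega
    · simp only [Fin.mk_one, Fin.isValue]; omega
  · intro h3; exact absurd hd h3

/-- the Euler relation along the curve -/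
theorem ph_euler (x y : k) (F : P2 k) (w : ℕ) (hF : Iso F w) :
    Polynomial.C y * (Polynomial.C x * ph x y (DD k F)) =
      -2 * (w : Polynomial k) * (Polynomial.C y * (Polynomial.C y * Polynomial.X)) * ph x y F +
      6 * ((Polynomial.C y * Polynomial.X) ^ 2 - Polynomial.C x ^ 3) *
        Polynomial.derivative (ph x y F) := by
  rw [ph_deriv]
  have h := congrArg (ph x y) (euler hF)
  rw [DD_eq]
  simp only [map_add, map_mul, map_ofNat, map_natCast, map_neg, map_pow, ph_X0, ph_X1] at h ⊢
  linear_combination (-2 * Polynomial.C y * (Polynomial.C y * Polynomial.X)) * h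

/-- the local argument -/
theorem core (p : ℕ) [Fact p.Prime] [CharP k p] (x y : k) (hx : x ≠ 0) (hy : y ≠ 0)
    (hxy : x ^ 3 ≠ y ^ 2) (h6 : (6 : k) ≠ 0) (f b : Polynomial k) (hf0 : f ≠ 0)
    (hfd : f.natDegree < p)
    (e1 : Polynomial.C (x * y) * b = Polynomial.C (y ^ 2) * Polynomial.X * f +
      Polynomial.C 6 * (Polynomial.C (y ^ 2) * Polynomial.X ^ 2 - Polynomial.C (x ^ 3)) *
        Polynomial.derivative f)
    (e2 : -(Polynomial.C (x ^ 2 * y) * f) = -(Polynomial.C (y ^ 2) * Polynomial.X * b) +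
      Polynomial.C 6 * (Polynomial.C (y ^ 2) * Polynomial.X ^ 2 - Polynomial.C (x ^ 3)) *
        Polynomial.derivative b)
    (hf1 : f.eval 1 = 0) : b.eval 1 ≠ 0 := by
  intro hb1
  set m := f.rootMultiplicity 1 with hm
  have hm1 : 0 < m := (Polynomial.rootMultiplicity_pos hf0).2 hf1
  have hmp : m < p := by
    have h1 := Polynomial.natDegree_le_of_dvd (Polynomial.pow_rootMultiplicity_dvd f 1) hf0
    rw [Polynomial.natDegree_pow, Polynomial.natDegree_X_sub_C, mul_one] at h1
    exact lt_of_le_of_lt h1 hfd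
  obtain ⟨h, hfh, hh1⟩ := Polynomial.exists_eq_pow_rootMultiplicity_mul_and_not_dvd f hf0 1
  rw [← hm] at hfh
  have hh : h.eval 1 ≠ 0 := by
    intro h0
    exact hh1 (Polynomial.dvd_iff_isRoot.2 h0)
  have hcast : ∀ n : ℕ, 0 < n → n < p → (n : k) ≠ 0 := by
    intro n h1 h2 h3
    rw [CharP.cast_eq_zero_iff k p] at h3
    have := Nat.le_of_dvd h1 h3
    omega
  set L : Polynomial k := Polynomial.X - Polynomial.C 1 with hL
  have hLd : Polynomial.derivative L = 1 := by simp [hL]
  have hL0 : L ≠ 0 := Polynomial.X_sub_C_ne_zero 1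
  have hL1 : L.eval 1 = 0 := by simp [hL]
  set g : Polynomial k := Polynomial.C 6 * (Polynomial.C (y ^ 2) * Polynomial.X ^ 2 -
    Polynomial.C (x ^ 3)) with hg
  have hg1 : g.eval 1 ≠ 0 := by
    rw [hg]
    simp only [Polynomial.eval_mul, Polynomial.eval_C, Polynomial.eval_sub, Polynomial.eval_pow,
      Polynomial.eval_X, one_pow, mul_one]
    exact mul_ne_zero h6 (sub_ne_zero.2 (Ne.symm hxy))
  obtain ⟨n, hn⟩ : ∃ n, m = n + 1 := ⟨m - 1, by omega⟩
  -- derivative of `f`
  set k1 : Polynomial k := Polynomial.C (y ^ 2) * Polynomial.X * (L * h) +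
    g * ((m : Polynomial k) * h + L * Polynomial.derivative h) with hk1
  have hb : Polynomial.C (x * y) * b = L ^ n * k1 := by
    rw [e1, hk1, hfh, Polynomial.derivative_mul, Polynomial.derivative_pow, hLd, hn]
    rw [Nat.add_sub_cancel, pow_succ]
    simp only [map_natCast]
    ring
  have hk1e : k1.eval 1 ≠ 0 := by
    rw [hk1]
    simp only [Polynomial.eval_add, Polynomial.eval_mul, hL1, zero_mul, mul_zero, zero_add,
      Polynomial.eval_natCast, add_zero]
    exact mul_ne_zero hg1 (mul_ne_zero (hcast m hm1 hmp) hh)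
  have hn1 : 0 < n := by
    rcases Nat.eq_zero_or_pos n with h0 | h0
    · exfalso
      rw [h0, pow_zero, one_mul] at hb
      have := congrArg (Polynomial.eval 1) hb
      rw [Polynomial.eval_mul, hb1, mul_zero] at this
      exact hk1e this.symm
    · exact h0
  obtain ⟨l, hl⟩ : ∃ l, n = l + 1 := ⟨n - 1, by omega⟩
  have hb' : Polynomial.C (x * y) * Polynomial.derivative b =
      L ^ l * ((n : Polynomial k) * k1 + L * Polynomial.derivative k1) := by
    have h3 := congrArg Polynomial.derivative hb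
    rw [Polynomial.derivative_mul, Polynomial.derivative_mul, Polynomial.derivative_C, zero_mul,
      zero_add, Polynomial.derivative_pow, hLd, hl, Nat.add_sub_cancel, pow_succ] at h3
    simp only [map_natCast] at h3
    rw [h3, hl]
    ring
  -- the second equation
  have h4 : L ^ l * (-(Polynomial.C (x * y) * Polynomial.C (x ^ 2 * y)) * (L ^ 2 * h)) =
      L ^ l * (-(Polynomial.C (y ^ 2) * Polynomial.X) * (L * k1) +
        g * ((n : Polynomial k) * k1 + L * Polynomial.derivative k1)) := by
    have e3 : Polynomial.C (x * y) * (-(Polynomial.C (x ^ 2 * y) * f)) =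
        -(Polynomial.C (y ^ 2) * Polynomial.X) * (Polynomial.C (x * y) * b) +
          g * (Polynomial.C (x * y) * Polynomial.derivative b) := by
      rw [e2]; ring
    rw [hb, hb', hfh, hn, hl] at e3
    rw [hl]
    linear_combination e3
  have h5 := mul_left_cancel₀ (pow_ne_zero l hL0) h4
  have h6' := congrArg (Polynomial.eval 1) h5
  simp only [Polynomial.eval_add, Polynomial.eval_mul, Polynomial.eval_pow, hL1,
    Polynomial.eval_natCast, Polynomial.eval_neg] at h6'
  have h7 : g.eval 1 * ((n : k) * k1.eval 1) = 0 := by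
    linear_combination -h6'
  exact (mul_ne_zero hg1 (mul_ne_zero (hcast n hn1 (by omega)) hk1e)) h7

theorem main : Simple := by
  intro p hp hp5 A hA hA0 hode x y hx hy hxy hxA
  have hodd : 2 * ((p - 1) / 2) = p - 1 := by
    rcases hp.out.eq_two_or_odd with h | h <;> omega
  have h6 : (6 : ZMod p) ≠ 0 := by
    intro h
    have h2 : ((6 : ℕ) : ZMod p) = 0 := by exact_mod_cast h
    rw [ZMod.natCast_eq_zero_iff] at h2
    have h3 : p ∣ 2 * 3 := h2
    rcases (Nat.Prime.dvd_mul hp.out).1 h3 with h | h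
    · have := Nat.le_of_dvd (by norm_num) h; omega
    · have := Nat.le_of_dvd (by norm_num) h; omega
  have hp0 : ((p : ℕ) : Polynomial (ZMod p)) = 0 := by
    rw [← map_natCast (Polynomial.C (R := ZMod p)) p, ZMod.natCast_self, map_zero]
  set w := (p - 1) / 2 with hw
  have hw1 : (2 : Polynomial (ZMod p)) * (w : Polynomial (ZMod p)) = -1 := by
    have : ((2 * w : ℕ) : Polynomial (ZMod p)) = ((p - 1 : ℕ) : Polynomial (ZMod p)) := by rw [hodd]
    rw [Nat.cast_sub (by omega), hp0] at this
    push_cast at this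
    rw [this]; ring
  rw [← ph_eval] at hxA ⊢
  refine core p x y hx hy hxy h6 (ph x y A) (ph x y (DD (ZMod p) A)) (ph_ne_zero x y hx hy A _ hA hA0)
    (lt_of_le_of_lt (ph_degree x y A _ hA) (by omega)) ?_ ?_ hxA
  · have h1 := ph_euler x y A _ hA
    simp only [map_mul, map_pow, map_ofNat]
    linear_combination h1 + (-(Polynomial.C y * (Polynomial.C y * Polynomial.X)) * ph x y A) * hw1
  · have h1 := ph_euler x y (DD (ZMod p) A) _ (iso_DD hA)
    rw [hode] at h1
    simp only [map_mul, map_pow, map_ofNat, map_neg, ph_X0] at h1 ⊢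
    push_cast at h1
    linear_combination h1 +
      (-(Polynomial.C y * (Polynomial.C y * Polynomial.X)) * ph x y (DD (ZMod p) A)) * hw1

end

end Pool.Agent.Q279.SC.JSIMPLE
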