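import Pool.Agent.H501.G.R_pool_sql_team_seeded_3997aac3.Q279.SC.Stm

/-! Basic facts for the jobs of project SC (helper298). -/

set_option autoImplicit false

namespace Pool.Agent.Q279.SC.B298

open PowerSeries

noncomputable section

variable {R : Type} [CommRing R]

theorem coeff_th (f : R⟦X⟧) (n : ℕ) : coeff n (th f) = (n : R) * coeff n f := by
  rw [th, coeff_mk]

theorem th_eq (f : R⟦X⟧) : th f = X * derivative R f := by
  ext n
  rw [coeff_th]
  cases n with
  | zero => simp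
  | succ n =>
    rw [coeff_succ_X_mul, coeff_derivative]
    push_cast
    ring

theorem th_add (f g : R⟦X⟧) : th (f + g) = th f + th g := by
  rw [th_eq, th_eq, th_eq, map_add, mul_add]

theorem th_sub (f g : R⟦X⟧) : th (f - g) = th f - th g := by
  rw [th_eq, th_eq, th_eq, map_sub, mul_sub]

theorem th_neg (f : R⟦X⟧) : th (-f) = -th f := by
  rw [th_eq, th_eq, map_neg, mul_neg]

theorem th_mul (f g : R⟦X⟧) : th (f * g) = f * th g + g * th f := by
  rw [th_eq, th_eq, th_eq, Derivation.leibniz, smul_eq_mul, smul_eq_mul]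
  ring

theorem th_C (a : R) : th (PowerSeries.C a) = 0 := by
  rw [th_eq, derivative_C, mul_zero]

theorem th_one : th (1 : R⟦X⟧) = 0 := by
  rw [th_eq, derivative_one, mul_zero]

theorem th_zero : th (0 : R⟦X⟧) = 0 := by
  rw [th_eq, map_zero, mul_zero]

theorem th_natCast (n : ℕ) : th ((n : R⟦X⟧)) = 0 := by
  have : ((n : R⟦X⟧)) = PowerSeries.C (n : R) := by simp
  rw [this, th_C]

theorem th_nat_mul (n : ℕ) (f : R⟦X⟧) : th ((n : R⟦X⟧) * f) = (n : R⟦X⟧) * th f := by
  rw [th_mul, th_natCast, mul_zero, add_zero]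

theorem th_pow (f : R⟦X⟧) (n : ℕ) : th (f ^ n) = (n : R⟦X⟧) * f ^ (n - 1) * th f := by
  rw [th_eq, th_eq, Derivation.leibniz_pow]
  rw [nsmul_eq_mul, smul_eq_mul]
  ring

theorem th_map {S : Type} [CommRing S] (φ : R →+* S) (f : R⟦X⟧) :
    th (PowerSeries.map φ f) = PowerSeries.map φ (th f) := by
  ext n
  rw [coeff_th, coeff_map, coeff_map, coeff_th, map_mul, map_natCast]

/-! Ramanujan's equations over `R` -/

theorem rD (h : Ram) : 1728 * qD R = q4 R ^ 3 - q6 R ^ 2 := by
  have := congrArg (PowerSeries.map (Int.castRingHom R)) h.1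
  simpa only [map_mul, map_sub, map_pow, map_ofNat, qD, q4, q6] using this

theorem rd (h : Ram) : qD R = X * qd R := by
  have := congrArg (PowerSeries.map (Int.castRingHom R)) h.2.1
  simpa only [map_mul, map_X, qD, qd] using this

theorem rd0 (h : Ram) : constantCoeff (qd R) = 1 := by
  have h1 := h.2.2.1
  rw [← coeff_zero_eq_constantCoeff_apply] at h1 ⊢
  rw [qd, coeff_map, h1, map_one]

theorem r2 (h : Ram) : 12 * th (q2 R) = q2 R ^ 2 - q4 R := by
  have := congrArg (PowerSeries.map (Int.castRingHom R)) h.2.2.2.1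
  rw [map_mul, map_sub, map_pow, map_ofNat, ← th_map] at this
  exact this

theorem r4 (h : Ram) : 3 * th (q4 R) = q2 R * q4 R - q6 R := by
  have := congrArg (PowerSeries.map (Int.castRingHom R)) h.2.2.2.2.1
  rw [map_mul, map_sub, map_mul, map_ofNat, ← th_map] at this
  exact this

theorem r6 (h : Ram) : 2 * th (q6 R) = q2 R * q6 R - q4 R ^ 2 := by
  have := congrArg (PowerSeries.map (Int.castRingHom R)) h.2.2.2.2.2.1
  rw [map_mul, map_sub, map_pow, map_mul, map_ofNat, ← th_map] at this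
  exact this

theorem rth (h : Ram) : th (qD R) = q2 R * qD R := by
  have := congrArg (PowerSeries.map (Int.castRingHom R)) h.2.2.2.2.2.2
  rw [map_mul, ← th_map] at this
  exact this

theorem c4 : constantCoeff (q4 R) = 1 := by
  rw [← coeff_zero_eq_constantCoeff_apply, q4, coeff_map, z4]
  simp [zA]

theorem c6 : constantCoeff (q6 R) = 1 := by
  rw [← coeff_zero_eq_constantCoeff_apply, q6, coeff_map, z6]
  simp [zB]

theorem ev_X0 : ev R (MvPolynomial.X 0) = q4 R := by
  simp [ev]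

theorem ev_X1 : ev R (MvPolynomial.X 1) = q6 R := by
  simp [ev]

theorem ev_C (a : R) : ev R (MvPolynomial.C a) = PowerSeries.C a := by
  simp [ev]

theorem DD_X0 : DD R (MvPolynomial.X 0) = -4 * MvPolynomial.X 1 := by
  simp [DD]

theorem DD_X1 : DD R (MvPolynomial.X 1) = -6 * MvPolynomial.X 0 ^ 2 := by
  simp [DD]

/-- `DD` through partial derivatives -/
theorem DD_eq (F : P2 R) : DD R F = (-4 * MvPolynomial.X 1) * MvPolynomial.pderiv 0 F +
    (-6 * MvPolynomial.X 0 ^ 2) * MvPolynomial.pderiv 1 F := by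
  have h : DD R = (-4 * MvPolynomial.X 1 : P2 R) • MvPolynomial.pderiv (R := R) (0 : Fin 2) +
      (-6 * MvPolynomial.X 0 ^ 2 : P2 R) • MvPolynomial.pderiv (R := R) (1 : Fin 2) := by
    apply MvPolynomial.derivation_ext
    intro i
    fin_cases i
    · simp [DD_X0, MvPolynomial.pderiv_X]
    · simp [DD_X1, MvPolynomial.pderiv_X]
  rw [h]
  simp

/-! isobaric polynomials -/

theorem iso_X0 : Iso (MvPolynomial.X 0 : P2 R) 2 := MvPolynomial.isWeightedHomogeneous_X R _ 0

theorem iso_X1 : Iso (MvPolynomial.X 1 : P2 R) 3 := MvPolynomial.isWeightedHomogeneous_X R _ 1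

theorem iso_C (a : R) : Iso (MvPolynomial.C a : P2 R) 0 := MvPolynomial.isWeightedHomogeneous_C _ a

theorem iso_mul {F G : P2 R} {m n : ℕ} (h1 : Iso F m) (h2 : Iso G n) : Iso (F * G) (m + n) :=
  MvPolynomial.IsWeightedHomogeneous.mul h1 h2

theorem iso_pow {F : P2 R} {m : ℕ} (h1 : Iso F m) (n : ℕ) : Iso (F ^ n) (n * m) := by
  have := MvPolynomial.IsWeightedHomogeneous.pow h1 n
  rwa [smul_eq_mul] at this

theorem iso_add {F G : P2 R} {m : ℕ} (h1 : Iso F m) (h2 : Iso G m) : Iso (F + G) m :=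
  MvPolynomial.IsWeightedHomogeneous.add h1 h2

theorem iso_zero (m : ℕ) : Iso (0 : P2 R) m := MvPolynomial.isWeightedHomogeneous_zero _ _ _

theorem iso_Cmul {F : P2 R} {m : ℕ} (a : R) (h1 : Iso F m) : Iso (MvPolynomial.C a * F) m := by
  have := iso_mul (iso_C a) h1
  rwa [zero_add] at this

theorem iso_neg {F : P2 R} {m : ℕ} (h1 : Iso F m) : Iso (-F) m := by
  have := iso_Cmul (-1) h1
  rwa [MvPolynomial.C_neg, MvPolynomial.C_1, neg_one_mul] at this

theorem iso_sub {F G : P2 R} {m : ℕ} (h1 : Iso F m) (h2 : Iso G m) : Iso (F - G) m := by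
  rw [sub_eq_add_neg]
  exact iso_add h1 (iso_neg h2)

theorem iso_intmul {F : P2 R} {m : ℕ} (a : ℤ) (h1 : Iso F m) : Iso ((a : P2 R) * F) m := by
  have := iso_Cmul ((a : R)) h1
  rwa [map_intCast] at this

theorem iso_natmul {F : P2 R} {m : ℕ} (a : ℕ) (h1 : Iso F m) : Iso ((a : P2 R) * F) m := by
  have := iso_Cmul ((a : R)) h1
  rwa [map_natCast] at this

theorem iso_pd {F G : P2 R} {n k : ℕ} (h : Iso F n) (i : Fin 2)
    (hG : Iso G (k + (![2, 3] : Fin 2 → ℕ) i)) : Iso (G * MvPolynomial.pderiv i F) (n + k) := by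
  by_cases hi : (![2, 3] : Fin 2 → ℕ) i ≤ n
  · have h1 : Iso (MvPolynomial.pderiv i F) (n - (![2, 3] : Fin 2 → ℕ) i) :=
      MvPolynomial.IsWeightedHomogeneous.pderiv h (Nat.sub_add_cancel hi)
    have h2 := iso_mul hG h1
    have h3 : k + (![2, 3] : Fin 2 → ℕ) i + (n - (![2, 3] : Fin 2 → ℕ) i) = n + k := by omega
    rwa [h3] at h2
  · have h0 : MvPolynomial.pderiv i F = 0 := by
      apply MvPolynomial.pderiv_eq_zero_of_notMem_vars
      intro hv
      rw [MvPolynomial.mem_vars_iff_mem_support] at hv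
      obtain ⟨d, hd, hdi⟩ := hv
      have h1 := h (MvPolynomial.mem_support_iff.1 hd)
      have h2 : d i * (![2, 3] : Fin 2 → ℕ) i ≤ Finsupp.weight (![2, 3] : Fin 2 → ℕ) d := by
        rw [Finsupp.weight_apply, Finsupp.sum]
        exact Finset.single_le_sum (f := fun j => d j • (![2, 3] : Fin 2 → ℕ) j)
          (fun _ _ => Nat.zero_le _) hdi
      have h3 : 1 ≤ d i := Nat.one_le_iff_ne_zero.2 (Finsupp.mem_support_iff.1 hdi)
      have h4 : (![2, 3] : Fin 2 → ℕ) i ≤ d i * (![2, 3] : Fin 2 → ℕ) i :=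
        Nat.le_mul_of_pos_left _ h3
      omega
    rw [h0, mul_zero]
    exact iso_zero _

theorem iso_DD {F : P2 R} {w : ℕ} (h : Iso F w) : Iso (DD R F) (w + 1) := by
  rw [DD_eq]
  refine iso_add (iso_pd h 0 ?_) (iso_pd h 1 ?_)
  · have := iso_intmul (-4) (iso_X1 (R := R))
    push_cast at this
    exact this
  · have := iso_intmul (-6) (iso_pow (iso_X0 (R := R)) 2)
    push_cast at this
    exact this

/-- Euler's identity -/
theorem euler {F : P2 R} {w : ℕ} (h : Iso F w) :
    2 * (MvPolynomial.X 0 * MvPolynomial.pderiv 0 F) +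
      3 * (MvPolynomial.X 1 * MvPolynomial.pderiv 1 F) = (w : P2 R) * F := by
  have := MvPolynomial.IsWeightedHomogeneous.sum_weight_X_mul_pderiv h
  rw [Fin.sum_univ_two] at this
  simpa using this

end

end Pool.Agent.Q279.SC.B298
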