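import Pool.Agent.H501.G.R_pool_sql_team_seeded_3997aac3.Q279.SC.J.COUNT

/-!
# Project SC, job SMALL: the primes 2 and 3
-/

set_option autoImplicit false

namespace Pool.Agent.Q279.SC.JSMALL

open Finset Pool.Agent.Q279.SC

set_option maxRecDepth 100000 in
theorem dec2 : ∀ a1 a2 a3 a4 a6 : ZMod 2,
    (-(a1 ^ 2 + 4 * a2) ^ 2 * (a1 ^ 2 * a6 + 4 * a2 * a6 - a1 * a3 * a4 + a2 * a3 ^ 2 - a4 ^ 2) -
      8 * (2 * a4 + a1 * a3) ^ 3 - 27 * (a3 ^ 2 + 4 * a6) ^ 2 +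
      9 * (a1 ^ 2 + 4 * a2) * (2 * a4 + a1 * a3) * (a3 ^ 2 + 4 * a6) ≠ 0) →
    ((univ.filter (fun xy : ZMod 2 × ZMod 2 => xy.2 ^ 2 + a1 * xy.1 * xy.2 + a3 * xy.2 =
      xy.1 ^ 3 + a2 * xy.1 ^ 2 + a4 * xy.1 + a6)).card % 2 = 0) →
    (a1 ^ 2 + 4 * a2) ^ 2 - 24 * (2 * a4 + a1 * a3) = 0 := by
  decide

set_option maxRecDepth 1000000 in
theorem dec3 : ∀ a1 a2 a3 a4 a6 : ZMod 3,
    (-(a1 ^ 2 + 4 * a2) ^ 2 * (a1 ^ 2 * a6 + 4 * a2 * a6 - a1 * a3 * a4 + a2 * a3 ^ 2 - a4 ^ 2) -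
      8 * (2 * a4 + a1 * a3) ^ 3 - 27 * (a3 ^ 2 + 4 * a6) ^ 2 +
      9 * (a1 ^ 2 + 4 * a2) * (2 * a4 + a1 * a3) * (a3 ^ 2 + 4 * a6) ≠ 0) →
    ((univ.filter (fun xy : ZMod 3 × ZMod 3 => xy.2 ^ 2 + a1 * xy.1 * xy.2 + a3 * xy.2 =
      xy.1 ^ 3 + a2 * xy.1 ^ 2 + a4 * xy.1 + a6)).card % 3 = 0) →
    (a1 ^ 2 + 4 * a2) ^ 2 - 24 * (2 * a4 + a1 * a3) = 0 := by
  decide

/-- the number of points modulo `p` from the filter -/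
theorem card_mod {p : ℕ} [Fact p.Prime] (V : WeierstrassCurve (ZMod p)) (hD : V.Δ ≠ 0) :
    Nat.card V.toAffine.Point = (univ.filter (fun xy : ZMod p × ZMod p =>
      xy.2 ^ 2 + V.a₁ * xy.1 * xy.2 + V.a₃ * xy.2 =
      xy.1 ^ 3 + V.a₂ * xy.1 ^ 2 + V.a₄ * xy.1 + V.a₆)).card + 1 := by
  rw [JCOUNT.card_pt V hD]
  congr 1
  rw [Nat.card_eq_fintype_card, Fintype.card_subtype]

theorem of_prime {p : ℕ} [Fact p.Prime] (W : WeierstrassCurve ℤ)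
    (hdec : ∀ a1 a2 a3 a4 a6 : ZMod p,
    (-(a1 ^ 2 + 4 * a2) ^ 2 * (a1 ^ 2 * a6 + 4 * a2 * a6 - a1 * a3 * a4 + a2 * a3 ^ 2 - a4 ^ 2) -
      8 * (2 * a4 + a1 * a3) ^ 3 - 27 * (a3 ^ 2 + 4 * a6) ^ 2 +
      9 * (a1 ^ 2 + 4 * a2) * (2 * a4 + a1 * a3) * (a3 ^ 2 + 4 * a6) ≠ 0) →
    ((univ.filter (fun xy : ZMod p × ZMod p => xy.2 ^ 2 + a1 * xy.1 * xy.2 + a3 * xy.2 =
      xy.1 ^ 3 + a2 * xy.1 ^ 2 + a4 * xy.1 + a6)).card % p = 0) →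
    (a1 ^ 2 + 4 * a2) ^ 2 - 24 * (2 * a4 + a1 * a3) = 0)
    (hD : ¬ (p : ℤ) ∣ W.Δ) (hap : (p : ℤ) ∣ ap W p) : (p : ℤ) ∣ W.c₄ := by
  obtain ⟨V, hV⟩ : ∃ V, V = W.map (Int.castRingHom (ZMod p)) := ⟨_, rfl⟩
  have hVD : V.Δ ≠ 0 := by
    rw [hV, WeierstrassCurve.map_Δ]
    intro h0
    exact hD ((ZMod.intCast_zmod_eq_zero_iff_dvd _ _).1 h0)
  have hc4 : ((W.c₄ : ℤ) : ZMod p) = V.c₄ := by
    rw [hV, WeierstrassCurve.map_c₄]; rfl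
  rw [← ZMod.intCast_zmod_eq_zero_iff_dvd, hc4]
  unfold ap at hap
  rw [← hV, card_mod V hVD] at hap
  obtain ⟨n, hn⟩ : ∃ n, n = (univ.filter (fun xy : ZMod p × ZMod p =>
      xy.2 ^ 2 + V.a₁ * xy.1 * xy.2 + V.a₃ * xy.2 =
      xy.1 ^ 3 + V.a₂ * xy.1 ^ 2 + V.a₄ * xy.1 + V.a₆)).card := ⟨_, rfl⟩
  rw [← hn] at hap
  have h1 : (p : ℤ) ∣ (n : ℤ) := by
    have h2 : (n : ℤ) = p - (p + 1 - ((n + 1 : ℕ) : ℤ)) := by push_cast; ring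
    rw [h2]
    exact dvd_sub (dvd_refl _) hap
  have h3 : n % p = 0 := Nat.mod_eq_zero_of_dvd (Int.natCast_dvd_natCast.1 h1)
  rw [hn] at h3
  have h4 := hdec V.a₁ V.a₂ V.a₃ V.a₄ V.a₆ (by
    intro h0
    apply hVD
    unfold WeierstrassCurve.Δ WeierstrassCurve.b₂ WeierstrassCurve.b₄ WeierstrassCurve.b₆
      WeierstrassCurve.b₈
    exact h0) h3
  unfold WeierstrassCurve.c₄ WeierstrassCurve.b₂ WeierstrassCurve.b₄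
  exact h4

theorem main : Small := by
  intro p hp W hD hap
  rcases hp with rfl | rfl
  · have : Fact (Nat.Prime 2) := ⟨by norm_num⟩
    exact of_prime W dec2 hD hap
  · have : Fact (Nat.Prime 3) := ⟨by norm_num⟩
    exact of_prime W dec3 hD hap

end Pool.Agent.Q279.SC.JSMALL
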